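import Pool.Agent.W300.FT.Stm

set_option autoImplicit false

open MeasureTheory ProbabilityTheory Set Filter

namespace Pool.Agent.W99.FT

/-- one coordinate -/
theorem one_coord {X Z : Type} [MeasurableSpace X] [MeasurableSpace Z] (μ : Measure X)
    (ρ : Measure Z) (P : Set X) (Q : Set Z) (a u : X → Bool) (b w : Z → Bool)
    (h : ∀ᵐ z ∂ρ, ∀ᵐ x ∂μ, x ∈ P → z ∈ Q → (a x && b z) = xor (u x) (w z)) :
    (∃ c, ∀ᵐ x ∂μ, x ∈ P → a x = c) ∨ (∃ c, ∀ᵐ z ∂ρ, z ∈ Q → b z = c) := by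
  by_cases h1 : ∀ᵐ z ∂ρ, z ∈ Q → b z = false
  · exact Or.inr ⟨false, h1⟩
  by_cases h0 : ∀ᵐ z ∂ρ, z ∈ Q → b z = true
  · exact Or.inr ⟨true, h0⟩
  left
  obtain ⟨z1, hz1, hz1'⟩ := ((Filter.not_eventually.1 h1).and_eventually h).exists
  obtain ⟨z0, hz0, hz0'⟩ := ((Filter.not_eventually.1 h0).and_eventually h).exists
  push Not at hz1 hz0
  obtain ⟨q1, b1⟩ := hz1
  obtain ⟨q0, b0⟩ := hz0
  have b1' : b z1 = true := by simpa using b1
  have b0' : b z0 = false := by simpa using b0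
  refine ⟨xor (w z0) (w z1), ?_⟩
  filter_upwards [hz1', hz0'] with x e1 e0 hx
  have f1 := e1 hx q1
  have f0 := e0 hx q0
  rw [b1'] at f1
  rw [b0'] at f0
  revert f1 f0
  cases a x <;> cases u x <;> cases w z0 <;> cases w z1 <;> simp

/-- the fibre -/
theorem fibre {X Z : Type} [MeasurableSpace X] [MeasurableSpace Z] (μ : Measure X)
    (ρ : Measure Z) (P A0 : Set X) (Q B0 : Set Z) (a u : X → ℕ → Bool) (b w : Z → ℕ → Bool)
    (hP : P ⊆ A0) (hQ : Q ⊆ B0)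
    (h : ∀ᵐ z ∂ρ, ∀ᵐ x ∂μ, x ∈ P → z ∈ Q → ∀ i, (a x i && b z i) = xor (u x i) (w z i))
    (hA : ∀ I : Set ℕ, I.Infinite → ∀ c : ℕ → Bool, μ (A0 ∩ {x | ∀ i ∈ I, a x i = c i}) = 0)
    (hB : ∀ I : Set ℕ, I.Infinite → ∀ c : ℕ → Bool, ρ (B0 ∩ {x | ∀ i ∈ I, b x i = c i}) = 0) :
    μ P = 0 ∨ ρ Q = 0 := by
  have h1 : ∀ i, (∃ c, ∀ᵐ x ∂μ, x ∈ P → a x i = c) ∨ (∃ c, ∀ᵐ z ∂ρ, z ∈ Q → b z i = c) := by
    intro i
    refine one_coord μ ρ P Q (fun x => a x i) (fun x => u x i) (fun z => b z i) (fun z => w z i) ?_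
    filter_upwards [h] with z hz
    filter_upwards [hz] with x hx hxP hzQ using hx hxP hzQ i
  have h2 : {i : ℕ | ∃ c, ∀ᵐ x ∂μ, x ∈ P → a x i = c} ∪
      {i : ℕ | ∃ c, ∀ᵐ z ∂ρ, z ∈ Q → b z i = c} = univ := by
    ext i
    simpa using h1 i
  have h3 : {i : ℕ | ∃ c, ∀ᵐ x ∂μ, x ∈ P → a x i = c}.Infinite ∨
      {i : ℕ | ∃ c, ∀ᵐ z ∂ρ, z ∈ Q → b z i = c}.Infinite := by
    have : ({i : ℕ | ∃ c, ∀ᵐ x ∂μ, x ∈ P → a x i = c} ∪
      {i : ℕ | ∃ c, ∀ᵐ z ∂ρ, z ∈ Q → b z i = c}).Infinite := by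
      rw [h2]; exact Set.infinite_univ
    exact Set.infinite_union.1 this
  classical
  rcases h3 with h3 | h3
  · left
    let c : ℕ → Bool := fun i => if hi : ∃ c, ∀ᵐ x ∂μ, x ∈ P → a x i = c then hi.choose else false
    have hc : ∀ i, i ∈ {i : ℕ | ∃ c, ∀ᵐ x ∂μ, x ∈ P → a x i = c} →
        ∀ᵐ x ∂μ, x ∈ P → a x i = c i := by
      intro i hi
      have hi' : ∃ c, ∀ᵐ x ∂μ, x ∈ P → a x i = c := hi
      have : c i = hi'.choose := dif_pos hi'
      rw [this]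
      exact hi'.choose_spec
    have hall : ∀ᵐ x ∂μ, ∀ i, i ∈ {i : ℕ | ∃ c, ∀ᵐ x ∂μ, x ∈ P → a x i = c} →
        x ∈ P → a x i = c i := by
      rw [ae_all_iff]
      intro i
      by_cases hi : i ∈ {i : ℕ | ∃ c, ∀ᵐ x ∂μ, x ∈ P → a x i = c}
      · filter_upwards [hc i hi] with x hx _ using hx
      · exact Filter.Eventually.of_forall fun x h => absurd h hi
    refine le_antisymm ?_ (zero_le)
    rw [← hA _ h3 c]
    refine measure_mono_ae ?_
    filter_upwards [hall] with x hx hxP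
    exact ⟨hP hxP, fun i hi => hx i hi hxP⟩
  · right
    let c : ℕ → Bool := fun i => if hi : ∃ c, ∀ᵐ x ∂ρ, x ∈ Q → b x i = c then hi.choose else false
    have hc : ∀ i, i ∈ {i : ℕ | ∃ c, ∀ᵐ x ∂ρ, x ∈ Q → b x i = c} →
        ∀ᵐ x ∂ρ, x ∈ Q → b x i = c i := by
      intro i hi
      have hi' : ∃ c, ∀ᵐ x ∂ρ, x ∈ Q → b x i = c := hi
      have : c i = hi'.choose := dif_pos hi'
      rw [this]
      exact hi'.choose_spec
    have hall : ∀ᵐ x ∂ρ, ∀ i, i ∈ {i : ℕ | ∃ c, ∀ᵐ x ∂ρ, x ∈ Q → b x i = c} →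
        x ∈ Q → b x i = c i := by
      rw [ae_all_iff]
      intro i
      by_cases hi : i ∈ {i : ℕ | ∃ c, ∀ᵐ x ∂ρ, x ∈ Q → b x i = c}
      · filter_upwards [hc i hi] with x hx _ using hx
      · exact Filter.Eventually.of_forall fun x h => absurd h hi
    refine le_antisymm ?_ (zero_le)
    rw [← hB _ h3 c]
    refine measure_mono_ae ?_
    filter_upwards [hall] with x hx hxP
    exact ⟨hQ hxP, fun i hi => hx i hi hxP⟩

theorem pr1 : Pool.Agent.W300.FT.S_PR1 := by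
  intro X Y Z _ _ _ μ ν ρ hμ hν hρ EL ER A0 B0 a b u w mEL mER mA mB ma mb mu mw hEL hER hae hA hB
  have key : ∀ᵐ y ∂ν, μ {x | (x, y) ∈ EL} = 0 ∨ ρ {z | (y, z) ∈ ER} = 0 := by
    have h1 : ∀ᵐ p ∂(μ.prod ν), ∀ᵐ z ∂ρ, p ∈ EL → (p.2, z) ∈ ER →
        ∀ i, (a p.1 i && b z i) = xor (u p i) (w (p.2, z) i) := Measure.ae_ae_of_ae_prod hae
    have h2 : ∀ᵐ q ∂(ν.prod μ), ∀ᵐ z ∂ρ, (q.2, q.1) ∈ EL → (q.1, z) ∈ ER →
        ∀ i, (a q.2 i && b z i) = xor (u (q.2, q.1) i) (w (q.1, z) i) :=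
      (Measure.measurePreserving_swap (μ := ν) (ν := μ)).quasiMeasurePreserving.ae h1
    have h3 : ∀ᵐ y ∂ν, ∀ᵐ x ∂μ, ∀ᵐ z ∂ρ, (x, y) ∈ EL → (y, z) ∈ ER →
        ∀ i, (a x i && b z i) = xor (u (x, y) i) (w (y, z) i) := Measure.ae_ae_of_ae_prod h2
    filter_upwards [h3] with y hy
    refine fibre μ ρ {x | (x, y) ∈ EL} A0 {z | (y, z) ∈ ER} B0 a (fun x => u (x, y)) b
      (fun z => w (y, z)) (fun x hx => hEL _ hx) (fun z hz => hER _ hz) ?_ hA hB
    have hm : MeasurableSet {p : X × Z | p.1 ∈ {x | (x, y) ∈ EL} → p.2 ∈ {z | (y, z) ∈ ER} →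
        ∀ i, (a p.1 i && b p.2 i) = xor (u (p.1, y) i) (w (y, p.2) i)} := by
      have e1 : MeasurableSet {p : X × Z | (p.1, y) ∈ EL} :=
        (measurable_fst.prodMk measurable_const) mEL
      have e2 : MeasurableSet {p : X × Z | (y, p.2) ∈ ER} :=
        (measurable_const.prodMk measurable_snd) mER
      have e3 : ∀ i, MeasurableSet {p : X × Z |
          (a p.1 i && b p.2 i) = xor (u (p.1, y) i) (w (y, p.2) i)} := by
        intro i
        have m1 : Measurable fun p : X × Z => a p.1 i :=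
          (measurable_pi_apply i).comp (ma.comp measurable_fst)
        have m2 : Measurable fun p : X × Z => b p.2 i :=
          (measurable_pi_apply i).comp (mb.comp measurable_snd)
        have m3 : Measurable fun p : X × Z => u (p.1, y) i :=
          (measurable_pi_apply i).comp (mu.comp (measurable_fst.prodMk measurable_const))
        have m4 : Measurable fun p : X × Z => w (y, p.2) i :=
          (measurable_pi_apply i).comp (mw.comp (measurable_const.prodMk measurable_snd))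
        have m5 : Measurable fun p : X × Z => ((a p.1 i, b p.2 i), (u (p.1, y) i, w (y, p.2) i)) :=
          (m1.prodMk m2).prodMk (m3.prodMk m4)
        exact m5 (MeasurableSet.of_discrete
          (s := {t : (Bool × Bool) × Bool × Bool | (t.1.1 && t.1.2) = xor t.2.1 t.2.2}))
      have e4 : {p : X × Z | p.1 ∈ {x | (x, y) ∈ EL} → p.2 ∈ {z | (y, z) ∈ ER} →
          ∀ i, (a p.1 i && b p.2 i) = xor (u (p.1, y) i) (w (y, p.2) i)} =
          {p : X × Z | (p.1, y) ∈ EL}ᶜ ∪ ({p : X × Z | (y, p.2) ∈ ER}ᶜ ∪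
            ⋂ i, {p : X × Z | (a p.1 i && b p.2 i) = xor (u (p.1, y) i) (w (y, p.2) i)}) := by
        ext p
        simp only [mem_ofPred_eq, mem_union, mem_compl_iff, mem_iInter]
        tauto
      rw [e4]
      exact e1.compl.union (e2.compl.union (MeasurableSet.iInter e3))
    exact (Measure.ae_ae_comm hm).1 hy
  have mρ : Measurable fun y : Y => ρ {z | (y, z) ∈ ER} := measurable_measure_prodMk_left mER
  have mS : MeasurableSet {p : X × Y | p ∈ EL ∧ ρ {z | (p.2, z) ∈ ER} ≠ 0} :=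
    mEL.inter ((mρ.comp measurable_snd) (measurableSet_singleton 0).compl)
  have hS : (μ.prod ν) {p : X × Y | p ∈ EL ∧ ρ {z | (p.2, z) ∈ ER} ≠ 0} = 0 := by
    rw [← (Measure.measurePreserving_swap (μ := ν) (ν := μ)).measure_preimage
      mS.nullMeasurableSet, Measure.measure_prod_null (mS.preimage measurable_swap)]
    filter_upwards [key] with y hy
    rcases hy with hy | hy
    · refine measure_mono_null (fun x hx => ?_) hy
      exact hx.1
    · have : Prod.mk y ⁻¹' (Prod.swap ⁻¹' {p : X × Y | p ∈ EL ∧ ρ {z | (p.2, z) ∈ ER} ≠ 0}) = ∅ := by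
        ext x
        simp only [mem_preimage, mem_ofPred_eq, mem_empty_iff_false, iff_false]
        exact fun h => h.2 hy
      rw [this]
      simp
  have mN : MeasurableSet {t : (X × Y) × Z | t.1 ∈ EL ∧ (t.1.2, t.2) ∈ ER} :=
    (measurable_fst mEL).inter
      (((measurable_snd.comp measurable_fst).prodMk measurable_snd) mER)
  rw [Measure.measure_prod_null mN]
  have hS' : ∀ᵐ p ∂(μ.prod ν), p ∉ {p : X × Y | p ∈ EL ∧ ρ {z | (p.2, z) ∈ ER} ≠ 0} :=
    measure_eq_zero_iff_ae_notMem.1 hS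
  filter_upwards [hS'] with p hp
  by_cases h : p ∈ EL
  · have h0 : ρ {z | (p.2, z) ∈ ER} = 0 := by
      by_contra hc
      exact hp ⟨h, hc⟩
    exact measure_mono_null (fun z hz => hz.2) h0
  · have : Prod.mk p ⁻¹' {t : (X × Y) × Z | t.1 ∈ EL ∧ (t.1.2, t.2) ∈ ER} = ∅ := by
      ext z
      simp only [mem_preimage, mem_ofPred_eq, mem_empty_iff_false, iff_false]
      exact fun h' => h h'.1
    rw [this]
    simp

end Pool.Agent.W99.FT
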